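import Pool.Agent.H17.MV.AllPrimesBelow

/-!
# AllPrimesBelow
-/

set_option autoImplicit false

set_option maxRecDepth 100000

namespace Pool.Agent.Results.MP_146b98_nt.AllPrimesBelow

open Pool.H17.MV.ArtinCriterion

/-- **Theorem.** For every prime `p < 10000` there is `σ ≥ 1` with `π_σ(p) < ub_σ(p)`. -/
theorem result (p : ℕ) (hp : p.Prime) (hlt : p < 10000) :
    ∃ σ : ℕ, 1 ≤ σ ∧ maxPeriod σ p < ub σ p :=
  Pool.H17.MV.AllPrimesBelow.result p hp hlt

end Pool.Agent.Results.MP_146b98_nt.AllPrimesBelow
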