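import Pool.Agent.H17.MV.ArtinCriterion

/-!
# ArtinCriterion
-/

set_option autoImplicit false

namespace Pool.Agent.Results.MP_146b98_nt.ArtinCriterion

open Pool.H17.MV.ArtinCriterion

open Polynomial

/-- **Theorem.** Let `p` be a prime and `q ≥ 7` a prime with `(p-1) ∣ (q-1)` for which `p` is a
primitive root modulo `q`.  Then the additive bound is not attained at `σ = q`. -/
theorem result (p q : ℕ) (hp : p.Prime) (hq : q.Prime) (hq7 : 7 ≤ q) (hdiv : (p - 1) ∣ (q - 1))
    (hord : orderOf (p : ZMod q) = q - 1) : maxPeriod q p < ub q p :=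
  Pool.H17.MV.ArtinCriterion.result p q hp hq hq7 hdiv hord

end Pool.Agent.Results.MP_146b98_nt.ArtinCriterion
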