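import Pool.Agent.H20.MTA.All
import Pool.Agent.H17.MV.ArtinCriterion

/-!
# MP_146b98_nt, Q1: yes

There are infinitely many primes `p` for which some `σ ≥ 1` has `π_σ(p) < ub_σ(p)`.
The definitions of `π_σ(p)` (`maxPeriod`) and `ub_σ(p)` (`ub`) are those of `ArtinCriterion`.
-/

set_option autoImplicit false

namespace Pool.Agent.Results.MP_146b98_nt.InfinitelyMany

open Pool.H17.MV.ArtinCriterion

/-- **Answer to Q1: yes.** There are infinitely many primes `p` for which there is some `σ ≥ 1`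
with `π_σ(p) < ub_σ(p)`. -/
theorem result : {p : ℕ | p.Prime ∧ ∃ σ : ℕ, 1 ≤ σ ∧ maxPeriod σ p < ub σ p}.Infinite := by
  refine Set.Infinite.mono ?_ MTA.all_FINAL
  rintro p ⟨hp, q, hq, hq7, hdiv, hord⟩
  exact ⟨hp, q, by omega, Pool.H17.MV.ArtinCriterion.result p q hp hq hq7 hdiv hord⟩

end Pool.Agent.Results.MP_146b98_nt.InfinitelyMany
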